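import Mathlib

set_option autoImplicit false
set_option linter.unusedSectionVars false
open MeasureTheory

namespace Pool.Agent.Results.MP_a19bc9_an.OneRadiusAnalytic

/-- `ℂⁿ` with its Euclidean (Hermitian) norm. Mathlib's `inner ℂ z w` is `∑ j, w j * conj (z j)`, the
product written `⟨w, z⟩` in the problem. -/
abbrev E (n : ℕ) := EuclideanSpace ℂ (Fin n)

/-- The open unit ball `B` of `ℂⁿ`. -/
def B (n : ℕ) : Set (E n) := Metric.ball 0 1

/-- `P_z w = (⟨w, z⟩ / ⟨z, z⟩) z`, and `P_0 = 0`. -/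
noncomputable def P {n : ℕ} (z w : E n) : E n := (inner ℂ z w / inner ℂ z z) • z

/-- The automorphism `φ_z` of the ball:
`φ_z(w) = (z - P_z w - s_z (w - P_z w)) / (1 - ⟨w, z⟩)` with `s_z = (1 - |z|²)^(1/2)`. -/
noncomputable def phi {n : ℕ} (z w : E n) : E n :=
  (1 - inner ℂ z w)⁻¹ • (z - P z w - ((Real.sqrt (1 - ‖z‖ ^ 2) : ℝ) : ℂ) • (w - P z w))

/-- The mean of `f` over the sphere of radius `r` about the origin, with respect to the normalised
surface measure. -/
noncomputable def sphereMean {n : ℕ} (f : E n → ℂ) (r : ℝ) : ℂ :=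
  ⨍ ζ : Metric.sphere (0 : E n) 1, f (r • (ζ : E n)) ∂((volume : Measure (E n)).toSphere)

/-- The identity `(*)` at `z` with radius `r`. -/
def MeanValueAt {n : ℕ} (u : E n → ℂ) (z : E n) (r : ℝ) : Prop :=
  sphereMean (fun w => u (phi z w)) r = u z

/-- The one-radius property. -/
def OneRadius {n : ℕ} (u : E n → ℂ) : Prop :=
  ∀ z ∈ B n, ∃ r : ℝ, 0 < r ∧ r < 1 ∧ MeanValueAt u z r

/-- The invariant Laplacian `(Δ~ u)(z) = Δ(u ∘ φ_z)(0)`. -/
noncomputable def invLaplacian {n : ℕ} (u : E n → ℂ) (z : E n) : ℂ :=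
  Laplacian.laplacian (fun w : E n => u (phi z w)) 0

/-- `M`-harmonic: `C²` in the ball and annihilated by the invariant Laplacian. -/
def MHarmonic {n : ℕ} (u : E n → ℂ) : Prop :=
  ContDiffOn ℝ 2 u (B n) ∧ ∀ z ∈ B n, invLaplacian u z = 0

/-- The equivalent mean value form of `M`-harmonicity. -/
def MHarmonicMean {n : ℕ} (u : E n → ℂ) : Prop :=
  ContinuousOn u (B n) ∧ ∀ z ∈ B n, ∀ r : ℝ, 0 < r → r < 1 → MeanValueAt u z r

variable {n : ℕ}

/-- the basic identity -/
lemma key (z w : E n) (hz : ‖z‖ < 1) (hw : inner ℂ z w ≠ (1 : ℂ)) :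
    1 - ‖phi z w‖ ^ 2 = (1 - ‖z‖ ^ 2) * (1 - ‖w‖ ^ 2) / ‖1 - inner ℂ z w‖ ^ 2 := by
  set a : ℂ := inner ℂ z w / inner ℂ z z with ha
  have hzz : inner ℂ z z = ((‖z‖ ^ 2 : ℝ) : ℂ) := by
    rw [inner_self_eq_norm_sq_to_K]; push_cast; rfl
  have hc : inner ℂ z w = a * ((‖z‖ ^ 2 : ℝ) : ℂ) := by
    by_cases h0 : z = 0
    · simp [h0]
    · rw [ha, hzz]
      have : ((‖z‖ ^ 2 : ℝ) : ℂ) ≠ 0 := by
        have := norm_ne_zero_iff.2 h0
        exact_mod_cast pow_ne_zero 2 this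
      field_simp
  set Q : E n := w - a • z with hQ
  have hzQ : inner ℂ z Q = 0 := by
    rw [hQ, inner_sub_right, inner_smul_right, hzz, hc]; ring
  have hSw : ‖w‖ ^ 2 = ‖a‖ ^ 2 * ‖z‖ ^ 2 + ‖Q‖ ^ 2 := by
    have : w = a • z + Q := by rw [hQ]; abel
    conv_lhs => rw [this]
    rw [@norm_add_sq ℂ, inner_smul_left, hzQ, norm_smul]; simp; ring
  have hne : (1 - inner ℂ z w : ℂ) ≠ 0 := sub_ne_zero.2 (Ne.symm hw)
  have hn2 : ‖1 - inner ℂ z w‖ ^ 2 ≠ 0 := by
    have := norm_ne_zero_iff.2 hne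
    positivity
  have hphi : phi z w = (1 - inner ℂ z w)⁻¹ •
      ((1 - a) • z - ((Real.sqrt (1 - ‖z‖ ^ 2) : ℝ) : ℂ) • Q) := by
    rw [phi, P, ← ha, ← hQ, sub_smul, one_smul]
  have hz2 : ‖z‖ ^ 2 < 1 := by
    have := norm_nonneg z
    nlinarith
  have hS : ‖phi z w‖ ^ 2 = (‖1 - a‖ ^ 2 * ‖z‖ ^ 2 + (1 - ‖z‖ ^ 2) * ‖Q‖ ^ 2) / ‖1 - inner ℂ z w‖ ^ 2 := by
    rw [hphi, norm_smul, mul_pow, @norm_sub_sq ℂ, inner_smul_left, inner_smul_right, hzQ,
      norm_smul, norm_smul, mul_pow, mul_pow]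
    simp only [mul_zero, map_zero, sub_zero, norm_inv]
    have : ‖((Real.sqrt (1 - ‖z‖ ^ 2) : ℝ) : ℂ)‖ ^ 2 = 1 - ‖z‖ ^ 2 := by
      rw [Complex.norm_real, Real.norm_of_nonneg (Real.sqrt_nonneg _), Real.sq_sqrt (by linarith)]
    rw [this]
    field_simp
  rw [hS, eq_div_iff hn2, sub_mul, div_mul_cancel₀ _ hn2, one_mul, hSw, hc]
  have e1 : ‖1 - a * ((‖z‖ ^ 2 : ℝ) : ℂ)‖ ^ 2 = (1 - a.re * ‖z‖ ^ 2) ^ 2 + (a.im * ‖z‖ ^ 2) ^ 2 := by
    rw [← Complex.normSq_eq_norm_sq, Complex.normSq_apply]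
    simp only [Complex.sub_re, Complex.one_re, Complex.mul_re, Complex.ofReal_re, Complex.ofReal_im,
      mul_zero, sub_zero, Complex.sub_im, Complex.one_im, Complex.mul_im, zero_add]
    ring
  have e2 : ‖1 - a‖ ^ 2 = (1 - a.re) ^ 2 + a.im ^ 2 := by
    rw [← Complex.normSq_eq_norm_sq, Complex.normSq_apply]
    simp
    ring
  have e3 : ‖a‖ ^ 2 = a.re ^ 2 + a.im ^ 2 := by
    rw [← Complex.normSq_eq_norm_sq, Complex.normSq_apply]
    ring
  rw [e1, e2, e3]
  ring

/-- slowly oscillating profile, as a function of the squared norm -/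
noncomputable def g (t : ℝ) : ℝ := (1 + t) / 2 * Real.cos (Real.log (1 - Real.log (1 - t)))

/-- the phase -/
noncomputable def th (t : ℝ) : ℝ := Real.log (1 - Real.log (1 - t))

lemma g_eq (t : ℝ) : g t = (1 + t) / 2 * Real.cos (th t) := rfl

lemma ip_norm_le (z w : E n) (hw : ‖w‖ < 1) : ‖inner ℂ z w‖ ≤ ‖z‖ := by
  have h := norm_inner_le_norm (𝕜 := ℂ) z w
  have := norm_nonneg z
  have := norm_nonneg w
  nlinarith

lemma ip_ne_one (z w : E n) (hz : ‖z‖ < 1) (hw : ‖w‖ < 1) : inner ℂ z w ≠ (1 : ℂ) := by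
  intro h
  have h1 := ip_norm_le z w hw
  rw [h] at h1
  simp at h1
  linarith

lemma phi_lt (z w : E n) (hz : ‖z‖ < 1) (hw : ‖w‖ < 1) : ‖phi z w‖ < 1 := by
  have h := key z w hz (ip_ne_one z w hz hw)
  have hne : (1 - inner ℂ z w : ℂ) ≠ 0 := sub_ne_zero.2 (Ne.symm (ip_ne_one z w hz hw))
  have : 0 < ‖(1 - inner ℂ z w : ℂ)‖ := norm_pos_iff.2 hne
  have h2 : 0 < (1 - ‖z‖ ^ 2) * (1 - ‖w‖ ^ 2) / ‖1 - inner ℂ z w‖ ^ 2 := by
    have h3 : 0 < 1 - ‖z‖ ^ 2 := by
      have := norm_nonneg z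
      nlinarith
    have h4 : 0 < 1 - ‖w‖ ^ 2 := by
      have := norm_nonneg w
      nlinarith
    positivity
  have h5 := norm_nonneg (phi z w)
  nlinarith

/-- the phase is asymptotically unchanged -/
lemma asymp (z : E n) (hz : ‖z‖ < 1) (ε : ℝ) (hε : 0 < ε) :
    ∀ᶠ r in nhdsWithin (1 : ℝ) (Set.Iio 1), ∀ w : E n, ‖w‖ = r →
      |g (‖phi z w‖ ^ 2) - Real.cos (th (r ^ 2))| ≤ ε := by
  have hs0 : 0 ≤ ‖z‖ := norm_nonneg _
  have hN : 0 < 1 - ‖z‖ ^ 2 := by nlinarith
  set s := ‖z‖ with hs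
  set K : ℝ := |Real.log (1 - s ^ 2)| + 2 * (|Real.log (1 - s)| + Real.log 2) with hK
  have hlog2 : 0 < Real.log 2 := Real.log_pos (by norm_num)
  have hK0 : 0 < K := by
    have := abs_nonneg (Real.log (1 - s ^ 2))
    have := abs_nonneg (Real.log (1 - s))
    rw [hK]; linarith
  have hlim : Filter.Tendsto (fun r : ℝ => 1 - r ^ 2) (nhdsWithin (1 : ℝ) (Set.Iio 1))
      (nhdsWithin 0 (Set.Ioi 0)) := by
    apply tendsto_nhdsWithin_of_tendsto_nhds_of_eventually_within
    · have : Filter.Tendsto (fun r : ℝ => 1 - r ^ 2) (nhds 1) (nhds (1 - 1 ^ 2)) := by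
        apply Continuous.tendsto; fun_prop
      simp only [one_pow, sub_self] at this
      exact this.mono_left nhdsWithin_le_nhds
    · have h1 : ∀ᶠ r in nhdsWithin (1 : ℝ) (Set.Iio 1), (0 : ℝ) < r :=
        nhdsWithin_le_nhds (lt_mem_nhds (by norm_num))
      filter_upwards [h1, self_mem_nhdsWithin] with r hr hr1
      simp only [Set.mem_Iio, Set.mem_Ioi] at *
      nlinarith
  have hT : Filter.Tendsto (fun r : ℝ => 1 - Real.log (1 - r ^ 2)) (nhdsWithin (1 : ℝ) (Set.Iio 1))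
      Filter.atTop := by
    have h1 : Filter.Tendsto (fun r : ℝ => Real.log (1 - r ^ 2)) (nhdsWithin (1 : ℝ) (Set.Iio 1))
      Filter.atBot := Real.tendsto_log_nhdsGT_zero.comp hlim
    have h2 := Filter.tendsto_neg_atBot_atTop.comp h1
    have h3 := Filter.tendsto_atTop_add_const_left _ (1 : ℝ) h2
    refine h3.congr (fun r => ?_)
    simp [sub_eq_add_neg]
  have hD : Filter.Tendsto (fun r : ℝ => (1 - r ^ 2) / (1 - s) ^ 2) (nhdsWithin (1 : ℝ) (Set.Iio 1))
      (nhds 0) := by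
    have := (hlim.mono_right nhdsWithin_le_nhds).div_const ((1 - s) ^ 2)
    simpa using this
  have h0 : ∀ᶠ r in nhdsWithin (1 : ℝ) (Set.Iio 1), (0 : ℝ) < r :=
    nhdsWithin_le_nhds (lt_mem_nhds (by norm_num))
  have h1 := hT.eventually (Filter.eventually_ge_atTop (K + 1 + 2 * K / ε))
  have h2 := hD.eventually (gt_mem_nhds (show (0 : ℝ) < ε / 2 by positivity))
  filter_upwards [h0, self_mem_nhdsWithin, h1, h2] with r hr0 hr1 hTr hDr w hw
  simp only [Set.mem_Iio] at hr1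
  have hw1 : ‖w‖ < 1 := by rw [hw]; exact hr1
  have hne := ip_ne_one z w hz hw1
  have hkey := key z w hz hne
  set c : ℂ := inner ℂ z w with hc
  have hcs : ‖c‖ ≤ s := ip_norm_le z w hw1
  have hlow : 1 - s ≤ ‖1 - c‖ := by
    have h := norm_sub_norm_le (1 : ℂ) c
    simp at h; linarith
  have hup : ‖1 - c‖ ≤ 2 := by
    have h := norm_sub_le (1 : ℂ) c
    simp at h; linarith
  have hpos : 0 < ‖1 - c‖ := by linarith
  have hr2 : 0 < 1 - r ^ 2 := by nlinarith
  set D : ℝ := 1 - ‖phi z w‖ ^ 2 with hDdef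
  have hDpos : 0 < D := by
    have := phi_lt z w hz hw1
    have := norm_nonneg (phi z w)
    rw [hDdef]; nlinarith
  have hD1 : D ≤ 1 := by
    have := sq_nonneg ‖phi z w‖
    rw [hDdef]; linarith
  rw [hw, ← hs] at hkey
  have hDle : D ≤ ε / 2 := by
    rw [hkey]
    refine le_trans ?_ hDr.le
    have : (1 - s ^ 2) * (1 - r ^ 2) ≤ 1 - r ^ 2 := by
      have := sq_nonneg s
      nlinarith
    have h3 : (1 - s) ^ 2 ≤ ‖1 - c‖ ^ 2 := by
      apply pow_le_pow_left₀ (by linarith) hlow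
    have h4 : 0 < (1 - s) ^ 2 := by
      have : 0 < 1 - s := by linarith
      positivity
    gcongr
  have hlogD : Real.log D = Real.log (1 - s ^ 2) + Real.log (1 - r ^ 2) - 2 * Real.log ‖1 - c‖ := by
    rw [hkey, Real.log_div (by positivity) (by positivity), Real.log_mul hN.ne' hr2.ne', Real.log_pow]
    norm_num
  set T : ℝ := 1 - Real.log (1 - r ^ 2) with hTdef
  set T' : ℝ := 1 - Real.log D with hT'def
  have hlc : |Real.log ‖1 - c‖| ≤ |Real.log (1 - s)| + Real.log 2 := by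
    rw [abs_le]
    constructor
    · have h5 : Real.log (1 - s) ≤ Real.log ‖1 - c‖ := Real.log_le_log (by linarith) hlow
      have := neg_abs_le (Real.log (1 - s))
      linarith
    · have h5 : Real.log ‖1 - c‖ ≤ Real.log 2 := Real.log_le_log hpos hup
      have := abs_nonneg (Real.log (1 - s))
      linarith
  have hTT : |T' - T| ≤ K := by
    have : T' - T = - Real.log (1 - s ^ 2) + 2 * Real.log ‖1 - c‖ := by
      rw [hT'def, hTdef, hlogD]; ring
    rw [this]
    calc |- Real.log (1 - s ^ 2) + 2 * Real.log ‖1 - c‖|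
        ≤ |- Real.log (1 - s ^ 2)| + |2 * Real.log ‖1 - c‖| := abs_add_le _ _
      _ = |Real.log (1 - s ^ 2)| + 2 * |Real.log ‖1 - c‖| := by
          rw [abs_neg, abs_mul]; simp
      _ ≤ K := by rw [hK]; linarith
  have hab := abs_le.1 hTT
  have hKe : 0 < 2 * K / ε := by positivity
  have hTpos : 0 < T := by linarith
  have hT'pos : 2 * K / ε < T' := by linarith
  have hT'pos' : 0 < T' := by linarith
  have hdiff : |Real.log T' - Real.log T| ≤ ε / 2 := by
    rw [abs_le]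
    constructor
    · have h6 : Real.log T - Real.log T' ≤ (T - T') / T' := by
        rw [← Real.log_div hTpos.ne' hT'pos'.ne']
        have := Real.log_le_sub_one_of_pos (show 0 < T / T' by positivity)
        refine this.trans (le_of_eq ?_)
        field_simp
      have h7 : (T - T') / T' ≤ ε / 2 := by
        rw [div_le_iff₀ hT'pos']
        have : K < ε / 2 * T' := by
          rw [div_lt_iff₀ hε] at hT'pos
          linarith
        linarith
      linarith
    · have h6 : Real.log T' - Real.log T ≤ (T' - T) / T := by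
        rw [← Real.log_div hT'pos'.ne' hTpos.ne']
        have := Real.log_le_sub_one_of_pos (show 0 < T' / T by positivity)
        refine this.trans (le_of_eq ?_)
        field_simp
      have h7 : (T' - T) / T ≤ ε / 2 := by
        rw [div_le_iff₀ hTpos]
        have : K < ε / 2 * T := by
          have h8 : 2 * K / ε < T := by linarith
          rw [div_lt_iff₀ hε] at h8
          linarith
        linarith
      linarith
  have e1 : g (‖phi z w‖ ^ 2) = (1 - D / 2) * Real.cos (Real.log T') := by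
    have h8 : ‖phi z w‖ ^ 2 = 1 - D := by rw [hDdef]; ring
    have h9 : 1 - (1 - D) = D := by ring
    have h10 : (1 + (1 - D)) / 2 = 1 - D / 2 := by ring
    rw [g, h8, h9, h10]
  have e2 : th (r ^ 2) = Real.log T := rfl
  rw [e1, e2]
  have e3 : (1 - D / 2) * Real.cos (Real.log T') - Real.cos (Real.log T) =
    (Real.cos (Real.log T') - Real.cos (Real.log T)) - D / 2 * Real.cos (Real.log T') := by ring
  rw [e3]
  calc |(Real.cos (Real.log T') - Real.cos (Real.log T)) - D / 2 * Real.cos (Real.log T')|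
      ≤ |Real.cos (Real.log T') - Real.cos (Real.log T)| + |D / 2 * Real.cos (Real.log T')| := abs_sub _ _
    _ ≤ |Real.log T' - Real.log T| + D / 2 * 1 := by
        refine add_le_add (Real.abs_cos_sub_cos_le _ _) ?_
        rw [abs_mul, abs_of_pos (by linarith : (0 : ℝ) < D / 2)]
        exact mul_le_mul_of_nonneg_left (Real.abs_cos_le_one _) (by linarith)
    _ ≤ ε := by linarith

/-- radii with prescribed phase -/
lemma phase (α : ℝ) (hα : 0 < α) : ∃ᶠ r in nhdsWithin (1 : ℝ) (Set.Iio 1),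
    Real.cos (th (r ^ 2)) = Real.cos α := by
  have hk : ∀ k : ℕ, 1 < Real.exp (α + k * (2 * Real.pi)) := by
    intro k
    rw [Real.one_lt_exp_iff]
    have := Real.pi_pos
    positivity
  have h1 : Filter.Tendsto (fun k : ℕ => Real.exp (α + k * (2 * Real.pi))) Filter.atTop Filter.atTop := by
    apply Real.tendsto_exp_atTop.comp
    apply Filter.tendsto_atTop_add_const_left
    exact (tendsto_natCast_atTop_atTop).atTop_mul_const (by positivity)
  have h2 : Filter.Tendsto (fun k : ℕ => 1 - Real.exp (α + k * (2 * Real.pi))) Filter.atTop Filter.atBot := by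
    have := Filter.tendsto_atBot_add_const_left _ (1 : ℝ) (Filter.tendsto_neg_atTop_atBot.comp h1)
    refine this.congr (fun k => ?_)
    simp [sub_eq_add_neg]
  have h3 := Real.tendsto_exp_atBot.comp h2
  have h4 : Filter.Tendsto (fun k : ℕ => Real.sqrt (1 - Real.exp (1 - Real.exp (α + k * (2 * Real.pi)))))
      Filter.atTop (nhds (Real.sqrt (1 - 0))) := by
    apply (Real.continuous_sqrt.tendsto _).comp
    exact h3.const_sub 1
  simp only [sub_zero, Real.sqrt_one] at h4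
  have h5 : ∀ k : ℕ, 0 < 1 - Real.exp (1 - Real.exp (α + k * (2 * Real.pi))) := by
    intro k
    have : Real.exp (1 - Real.exp (α + k * (2 * Real.pi))) < 1 := by
      rw [Real.exp_lt_one_iff]
      have := hk k
      linarith
    linarith
  have h6 : Filter.Tendsto (fun k : ℕ => Real.sqrt (1 - Real.exp (1 - Real.exp (α + k * (2 * Real.pi)))))
      Filter.atTop (nhdsWithin 1 (Set.Iio 1)) := by
    apply tendsto_nhdsWithin_of_tendsto_nhds_of_eventually_within _ h4
    refine Filter.Eventually.of_forall (fun k => ?_)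
    simp only [Set.mem_Iio]
    rw [Real.sqrt_lt' one_pos]
    have := Real.exp_pos (1 - Real.exp (α + k * (2 * Real.pi)))
    linarith
  refine h6.frequently (Filter.Eventually.frequently (Filter.Eventually.of_forall (fun k => ?_)))
  rw [Real.sq_sqrt (h5 k).le, th]
  have : Real.log (1 - Real.log (1 - (1 - Real.exp (1 - Real.exp (α + k * (2 * Real.pi)))))) =
      α + k * (2 * Real.pi) := by
    rw [sub_sub_cancel, Real.log_exp, sub_sub_cancel, Real.log_exp]
  rw [this]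
  exact Real.cos_add_nat_mul_two_pi α k

lemma measurable_phi (z : E n) : Measurable (phi z) := by
  have h1 : Measurable (fun w : E n => (inner ℂ z w : ℂ)) :=
    (Continuous.inner continuous_const continuous_id).measurable
  unfold phi P
  fun_prop

lemma measurable_g : Measurable g := by
  unfold g; fun_prop

lemma continuousAt_phi (z w : E n) (h : inner ℂ z w ≠ (1 : ℂ)) : ContinuousAt (phi z) w := by
  have h1 : ContinuousAt (fun w : E n => (inner ℂ z w : ℂ)) w :=
    (Continuous.inner continuous_const continuous_id).continuousAt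
  have h2 : ContinuousAt (fun w : E n => (1 - (inner ℂ z w : ℂ))⁻¹) w := by
    apply ContinuousAt.inv₀
    · fun_prop
    · exact sub_ne_zero.2 (Ne.symm h)
  unfold phi P
  fun_prop

lemma th_arg_pos {t : ℝ} (h0 : 0 ≤ t) (h1 : t < 1) : 1 ≤ 1 - Real.log (1 - t) := by
  have := Real.log_nonpos (show 0 ≤ 1 - t by linarith) (by linarith)
  linarith

lemma continuousAt_g {t : ℝ} (h0 : 0 ≤ t) (h1 : t < 1) : ContinuousAt g t := by
  have h2 := th_arg_pos h0 h1
  unfold g
  apply ContinuousAt.mul (by fun_prop)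
  apply Real.continuous_cos.continuousAt.comp
  apply ContinuousAt.log
  · apply ContinuousAt.sub continuousAt_const
    apply ContinuousAt.log (by fun_prop)
    linarith
  · linarith

lemma abs_g_lt {t : ℝ} (h0 : 0 ≤ t) (h1 : t < 1) : |g t| < 1 := by
  rw [g, abs_mul, abs_of_nonneg (by linarith)]
  have := Real.abs_cos_le_one (Real.log (1 - Real.log (1 - t)))
  nlinarith

/-- spherical average of the test function, real form -/
noncomputable def A (μ : Measure (Metric.sphere (0 : E n) 1)) (z : E n) (r : ℝ) : ℝ :=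
  ∫ ζ, g (‖phi z (r • (ζ : E n))‖ ^ 2) ∂μ

section avg

variable (μ : Measure (Metric.sphere (0 : E n) 1))

lemma aesm (z : E n) (r : ℝ) :
    AEStronglyMeasurable (fun ζ : Metric.sphere (0 : E n) 1 => g (‖phi z (r • (ζ : E n))‖ ^ 2)) μ := by
  apply Measurable.aestronglyMeasurable
  apply measurable_g.comp
  apply Measurable.pow_const
  apply Measurable.norm
  apply (measurable_phi z).comp
  fun_prop

lemma norm_smul_sphere (r : ℝ) (hr : 0 < r) (ζ : Metric.sphere (0 : E n) 1) : ‖r • (ζ : E n)‖ = r := by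
  rw [norm_smul, Real.norm_of_nonneg hr.le, norm_eq_of_mem_sphere, mul_one]

lemma sq_phi (z : E n) (hz : ‖z‖ < 1) (w : E n) (hw : ‖w‖ < 1) :
    0 ≤ ‖phi z w‖ ^ 2 ∧ ‖phi z w‖ ^ 2 < 1 := by
  have h1 := phi_lt z _ hz hw
  have h2 := norm_nonneg (phi z w)
  constructor <;> nlinarith

lemma bnd (z : E n) (hz : ‖z‖ < 1) (r : ℝ) (hr : 0 < r) (hr1 : r < 1)
    (ζ : Metric.sphere (0 : E n) 1) : ‖g (‖phi z (r • (ζ : E n))‖ ^ 2)‖ ≤ 1 := by
  have hw : ‖r • (ζ : E n)‖ < 1 := by rw [norm_smul_sphere r hr]; exact hr1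
  obtain ⟨h1, h2⟩ := sq_phi z hz _ hw
  exact (abs_g_lt h1 h2).le

variable [IsProbabilityMeasure μ]

lemma A_cont (z : E n) (hz : ‖z‖ < 1) : ContinuousOn (A μ z) (Set.Ioo 0 1) := by
  apply continuousOn_of_dominated (bound := fun _ => 1)
  · intro r _
    exact aesm μ z r
  · intro r hr
    exact Filter.Eventually.of_forall (bnd z hz r hr.1 hr.2)
  · exact integrable_const _
  · refine Filter.Eventually.of_forall (fun ζ => ?_)
    intro r hr
    apply ContinuousAt.continuousWithinAt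
    have hw : ‖r • (ζ : E n)‖ < 1 := by rw [norm_smul_sphere r hr.1]; exact hr.2
    obtain ⟨h1, h1'⟩ := sq_phi z hz _ hw
    have h2 : ContinuousAt (fun r : ℝ => r • (ζ : E n)) r := by
      fun_prop
    have h3 : ContinuousAt (fun r : ℝ => phi z (r • (ζ : E n))) r :=
      ContinuousAt.comp (f := fun r : ℝ => r • (ζ : E n)) (continuousAt_phi z _ (ip_ne_one z _ hz hw)) h2
    have h4 : ContinuousAt (fun r : ℝ => ‖phi z (r • (ζ : E n))‖ ^ 2) r := (h3.norm).pow 2
    exact ContinuousAt.comp (f := fun r : ℝ => ‖phi z (r • (ζ : E n))‖ ^ 2)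
      (continuousAt_g h1 h1') h4

lemma A_asymp (z : E n) (hz : ‖z‖ < 1) (ε : ℝ) (hε : 0 < ε) :
    ∀ᶠ r in nhdsWithin (1 : ℝ) (Set.Iio 1), |A μ z r - Real.cos (th (r ^ 2))| ≤ ε := by
  have h0 : ∀ᶠ r in nhdsWithin (1 : ℝ) (Set.Iio 1), (0 : ℝ) < r :=
    nhdsWithin_le_nhds (lt_mem_nhds (by norm_num))
  filter_upwards [asymp z hz ε hε, h0, self_mem_nhdsWithin] with r hr hr0 hr1
  simp only [Set.mem_Iio] at hr1
  have hint : Integrable (fun ζ : Metric.sphere (0 : E n) 1 => g (‖phi z (r • (ζ : E n))‖ ^ 2)) μ :=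
    Integrable.of_bound (aesm μ z r) 1 (Filter.Eventually.of_forall (bnd z hz r hr0 hr1))
  have h1 : A μ z r - Real.cos (th (r ^ 2)) =
      ∫ ζ : Metric.sphere (0 : E n) 1, (g (‖phi z (r • (ζ : E n))‖ ^ 2) - Real.cos (th (r ^ 2))) ∂μ := by
    rw [integral_sub hint (integrable_const _)]
    simp [A]
  rw [h1, ← Real.norm_eq_abs]
  have h2 : ∀ᵐ ζ : Metric.sphere (0 : E n) 1 ∂μ,
      ‖g (‖phi z (r • (ζ : E n))‖ ^ 2) - Real.cos (th (r ^ 2))‖ ≤ ε := by
    refine Filter.Eventually.of_forall (fun ζ => ?_)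
    apply hr
    exact norm_smul_sphere r hr0 ζ
  have h3 := norm_integral_le_of_norm_le_const h2
  simpa using h3

/-- the one-radius property -/
lemma one_radius (z : E n) (hz : ‖z‖ < 1) :
    ∃ r : ℝ, 0 < r ∧ r < 1 ∧ A μ z r = g (‖z‖ ^ 2) := by
  have hz0 := norm_nonneg z
  have hg : |g (‖z‖ ^ 2)| < 1 := abs_g_lt (by positivity) (by nlinarith)
  rw [abs_lt] at hg
  have hev := fun ε hε => A_asymp μ z hz ε hε
  have h0 : ∀ᶠ r in nhdsWithin (1 : ℝ) (Set.Iio 1), (0 : ℝ) < r :=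
    nhdsWithin_le_nhds (lt_mem_nhds (by norm_num))
  have hlt : ∀ᶠ r in nhdsWithin (1 : ℝ) (Set.Iio 1), r < (1 : ℝ) := self_mem_nhdsWithin
  obtain ⟨r1, hr1, hr1e, hr1p, hr1l⟩ := ((phase (2 * Real.pi) (by positivity)).and_eventually
    ((hev (1 - g (‖z‖ ^ 2)) (by linarith)).and (h0.and hlt))).exists
  obtain ⟨r2, hr2, hr2e, hr2p, hr2l⟩ := ((phase (Real.pi) (by positivity)).and_eventually
    ((hev (g (‖z‖ ^ 2) + 1) (by linarith)).and (h0.and hlt))).exists
  rw [hr1, Real.cos_two_pi, abs_le] at hr1e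
  rw [hr2, Real.cos_pi, abs_le] at hr2e
  have hc := A_cont μ z hz
  have hpre : IsPreconnected (Set.Ioo (0 : ℝ) 1) := isPreconnected_Ioo
  have := hpre.intermediate_value (a := r2) (b := r1) ⟨hr2p, hr2l⟩ ⟨hr1p, hr1l⟩ hc
  obtain ⟨r, hr, hre⟩ := this (show g (‖z‖ ^ 2) ∈ Set.Icc (A μ z r2) (A μ z r1) by
    constructor <;> linarith)
  exact ⟨r, hr.1, hr.2, hre⟩

lemma norm_phi_zero (w : E n) : ‖phi 0 w‖ ^ 2 = ‖w‖ ^ 2 := by
  have h3 := key (0 : E n) w (by simp) (by simp)
  simp only [inner_zero_left, sub_zero, norm_one, one_pow, div_one, norm_zero, ne_eq,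
    OfNat.ofNat_ne_zero, not_false_eq_true, zero_pow, one_mul] at h3
  linarith

/-- failure of the mean value property at the centre -/
lemma not_harm : ∃ r : ℝ, 0 < r ∧ r < 1 ∧ A μ (0 : E n) r ≠ g (‖(0 : E n)‖ ^ 2) := by
  have h0 : ∀ᶠ r in nhdsWithin (1 : ℝ) (Set.Iio 1), (0 : ℝ) < r :=
    nhdsWithin_le_nhds (lt_mem_nhds (by norm_num))
  have hlt : ∀ᶠ r in nhdsWithin (1 : ℝ) (Set.Iio 1), r < (1 : ℝ) := self_mem_nhdsWithin
  obtain ⟨r, hr, hrp, hrl⟩ := ((phase Real.pi (by positivity)).and_eventually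
    (h0.and hlt)).exists
  rw [Real.cos_pi] at hr
  refine ⟨r, hrp, hrl, ?_⟩
  have h1 : A μ (0 : E n) r = - ((1 + r ^ 2) / 2) := by
    have h2 : ∀ ζ : Metric.sphere (0 : E n) 1, g (‖phi 0 (r • (ζ : E n))‖ ^ 2) = - ((1 + r ^ 2) / 2) := by
      intro ζ
      rw [norm_phi_zero, norm_smul_sphere r hrp, g_eq, hr]
      ring
    rw [A]
    simp_rw [h2]
    simp
  rw [h1, g]
  simp
  nlinarith

end avg

/-- the test function -/
noncomputable def u (w : E n) : ℂ := ((g (‖w‖ ^ 2) : ℝ) : ℂ)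

lemma toSphere_univ_ne_zero (hn : 1 ≤ n) : ((volume : Measure (E n)).toSphere) Set.univ ≠ 0 := by
  rw [Measure.toSphere_apply_univ]
  have h1 : Module.finrank ℝ (E n) ≠ 0 := by
    have : Nontrivial (E n) := by
      have : Nonempty (Fin n) := ⟨⟨0, hn⟩⟩
      infer_instance
    exact (Module.finrank_pos (R := ℝ) (M := E n)).ne'
  have h2 : (volume : Measure (E n)) (Metric.ball 0 1) ≠ 0 :=
    (Metric.measure_ball_pos volume (0 : E n) one_pos).ne'
  exact mul_ne_zero (by exact_mod_cast h1) h2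

/-- normalised surface measure -/
noncomputable def sig (n : ℕ) : Measure (Metric.sphere (0 : E n) 1) :=
  (((volume : Measure (E n)).toSphere) Set.univ)⁻¹ • (volume : Measure (E n)).toSphere

lemma sig_prob (hn : 1 ≤ n) : IsProbabilityMeasure (sig n) := by
  constructor
  rw [sig, Measure.smul_apply, smul_eq_mul]
  exact ENNReal.inv_mul_cancel (toSphere_univ_ne_zero hn) (measure_ne_top _ _)

lemma sphereMean_u (z : E n) (r : ℝ) :
    sphereMean (fun w => u (phi z w)) r = ((A (sig n) z r : ℝ) : ℂ) := by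
  rw [sphereMean, average, ← sig, A]
  simp only [u]
  exact integral_complex_ofReal

lemma analyticAt_g {t : ℝ} (h0 : 0 ≤ t) (h1 : t < 1) : AnalyticAt ℝ g t := by
  have h2 := th_arg_pos h0 h1
  have h3 : AnalyticAt ℝ (fun t : ℝ => 1 - Real.log (1 - t)) t := by
    apply AnalyticAt.sub analyticAt_const
    apply AnalyticAt.log
    · exact analyticAt_const.sub analyticAt_id
    · linarith
  have h4 : AnalyticAt ℝ (fun t : ℝ => Real.log (1 - Real.log (1 - t))) t := by
    apply AnalyticAt.log h3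
    linarith
  have h5 : AnalyticAt ℝ (fun t : ℝ => Real.cos (Real.log (1 - Real.log (1 - t)))) t :=
    AnalyticAt.fun_comp (Real.analyticAt_cos) h4
  have h6 : AnalyticAt ℝ (fun t : ℝ => (1 + t) / 2) t := by
    exact (analyticAt_const.add analyticAt_id).div_const
  exact h6.mul h5

lemma analyticAt_normSq (w : E n) : AnalyticAt ℝ (fun w : E n => ‖w‖ ^ 2) w := by
  have h1 : (fun w : E n => ‖w‖ ^ 2) = fun w : E n => (innerSL ℝ w) w := by
    ext w
    rw [innerSL_apply_apply, real_inner_self_eq_norm_sq]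
  rw [h1]
  have h2 : AnalyticAt ℝ (fun p : E n × E n => (innerSL ℝ p.1) p.2) (w, w) :=
    (innerSL ℝ).toBilinForm.toContinuousBilinearMap.analyticAt_bilinear (w, w)
  exact h2.comp₂ analyticAt_id analyticAt_id

lemma analyticAt_h {w : E n} (hw : ‖w‖ < 1) : AnalyticAt ℝ (fun w : E n => g (‖w‖ ^ 2)) w := by
  have h0 := norm_nonneg w
  exact AnalyticAt.fun_comp (g := g) (f := fun w : E n => ‖w‖ ^ 2)
    (analyticAt_g (by positivity) (by nlinarith)) (analyticAt_normSq w)

lemma analyticAt_u {w : E n} (hw : ‖w‖ < 1) : AnalyticAt ℝ (u : E n → ℂ) w := by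
  have h1 := analyticAt_h hw
  exact (Complex.ofRealCLM.analyticAt _).comp h1

lemma hasDerivAt_g_zero : HasDerivAt g (1 / 2) 0 := by
  have h1 : HasDerivAt (fun t : ℝ => 1 - t) (-1) 0 := by
    simpa using (hasDerivAt_id (0 : ℝ)).const_sub 1
  have h2 : HasDerivAt (fun t : ℝ => Real.log (1 - t)) (-1 / (1 - 0)) 0 := h1.log (by norm_num)
  have h3 := h2.const_sub 1
  have h4 := h3.log (by norm_num)
  have h5 := h4.cos
  have h6 : HasDerivAt (fun t : ℝ => (1 + t) / 2) (1 / 2) 0 := by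
    simpa using ((hasDerivAt_id (0 : ℝ)).const_add 1).div_const 2
  have h7 := h6.mul h5
  refine (h7.congr_deriv ?_)
  simp

lemma hasFDerivAt_h {w : E n} (hw : ‖w‖ < 1) :
    HasFDerivAt (fun w : E n => g (‖w‖ ^ 2)) ((2 * deriv g (‖w‖ ^ 2)) • (innerSL ℝ w)) w := by
  have h0 := norm_nonneg w
  have h1 : HasFDerivAt (fun w : E n => ‖w‖ ^ 2) (2 • (innerSL ℝ w)) w :=
    (hasStrictFDerivAt_norm_sq w).hasFDerivAt
  have h2 : HasDerivAt g (deriv g (‖w‖ ^ 2)) (‖w‖ ^ 2) :=
    (analyticAt_g (by positivity) (by nlinarith)).differentiableAt.hasDerivAt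
  have h3 := h2.comp_hasFDerivAt w h1
  refine h3.congr_fderiv ?_
  ext v
  simp
  ring

lemma second (v : E n) :
    iteratedFDeriv ℝ 2 (fun w : E n => g (‖w‖ ^ 2)) 0 ![v, v] = ‖v‖ ^ 2 := by
  rw [iteratedFDeriv_two_apply]
  have h1 : fderiv ℝ (fun w : E n => g (‖w‖ ^ 2)) =ᶠ[nhds 0]
      fun w => (2 * deriv g (‖w‖ ^ 2)) • (innerSL ℝ w) := by
    have : Metric.ball (0 : E n) 1 ∈ nhds (0 : E n) := Metric.ball_mem_nhds _ one_pos
    filter_upwards [this] with w hw
    rw [mem_ball_zero_iff] at hw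
    exact (hasFDerivAt_h hw).fderiv
  rw [h1.fderiv_eq]
  have h2 : DifferentiableAt ℝ (fun w : E n => 2 * deriv g (‖w‖ ^ 2)) 0 := by
    have h3 : AnalyticAt ℝ (deriv g) (‖(0 : E n)‖ ^ 2) := by
      apply AnalyticAt.deriv
      apply analyticAt_g
      · simp
      · simp
    have h4 : AnalyticAt ℝ (fun w : E n => deriv g (‖w‖ ^ 2)) 0 :=
      AnalyticAt.fun_comp (g := deriv g) (f := fun w : E n => ‖w‖ ^ 2) h3 (analyticAt_normSq 0)
    exact h4.differentiableAt.const_mul 2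
  have h5 : HasFDerivAt (fun w : E n => (innerSL ℝ w : E n →L[ℝ] ℝ))
      (innerSL ℝ : E n →L[ℝ] E n →L[ℝ] ℝ) 0 :=
    (innerSL ℝ : E n →L[ℝ] E n →L[ℝ] ℝ).hasFDerivAt
  have h6 := h2.hasFDerivAt.smul h5
  have h7 := h6.fderiv
  simp only [Pi.smul_def'] at h7
  rw [h7]
  simp only [norm_zero, ne_eq, OfNat.ofNat_ne_zero, not_false_eq_true, zero_pow, map_zero,
    hasDerivAt_g_zero.deriv]
  simp
  exact real_inner_self_eq_norm_sq v

lemma laplacian_u : Laplacian.laplacian (u : E n → ℂ) 0 = (Module.finrank ℝ (E n) : ℂ) := by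
  have h1 : ContDiffAt ℝ 2 (fun w : E n => g (‖w‖ ^ 2)) 0 :=
    (analyticAt_h (by simp)).contDiffAt
  have h2 := h1.laplacian_CLM_comp_left (l := Complex.ofRealCLM)
  have h3 : (u : E n → ℂ) = Complex.ofRealCLM ∘ (fun w : E n => g (‖w‖ ^ 2)) := by
    ext w; rfl
  rw [h3, h2]
  simp only [Function.comp]
  rw [InnerProductSpace.laplacian_eq_iteratedFDeriv_stdOrthonormalBasis]
  simp only [second, OrthonormalBasis.norm_eq_one]
  simp

/-- **Main theorem.** For every `n ≥ 1` there is a bounded real-analytic function on the unit ball of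
`ℂⁿ` which has the one-radius property and is not `M`-harmonic, in either of the two equivalent
senses. -/
theorem result (n : ℕ) (hn : 1 ≤ n) :
    ∃ u : E n → ℂ, AnalyticOnNhd ℝ u (B n) ∧ (∃ M : ℝ, ∀ z ∈ B n, ‖u z‖ ≤ M) ∧
      OneRadius u ∧ ¬ MHarmonic u ∧ ¬ MHarmonicMean u := by
  have hprob := sig_prob hn
  refine ⟨u, ?_, ?_, ?_, ?_, ?_⟩
  · intro w hw
    exact analyticAt_u (mem_ball_zero_iff.1 hw)
  · refine ⟨1, fun z hz => ?_⟩
    have hz1 : ‖z‖ < 1 := mem_ball_zero_iff.1 hz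
    have hz0 := norm_nonneg z
    rw [u, Complex.norm_real]
    exact (abs_g_lt (by positivity) (by nlinarith)).le
  · intro z hz
    obtain ⟨r, hr0, hr1, hr⟩ := one_radius (sig n) z (mem_ball_zero_iff.1 hz)
    refine ⟨r, hr0, hr1, ?_⟩
    rw [MeanValueAt, sphereMean_u, hr, u]
  · rintro ⟨-, h⟩
    have h1 := h 0 (by simp [B])
    have h2 : (fun w : E n => u (phi 0 w)) = (u : E n → ℂ) := by
      ext w
      rw [u, u, norm_phi_zero]
    rw [invLaplacian, h2, laplacian_u] at h1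
    have h3 : Module.finrank ℝ (E n) ≠ 0 := by
      have : Nontrivial (E n) := by
        have : Nonempty (Fin n) := ⟨⟨0, hn⟩⟩
        infer_instance
      exact (Module.finrank_pos (R := ℝ) (M := E n)).ne'
    exact h3 (by exact_mod_cast h1)
  · rintro ⟨-, h⟩
    obtain ⟨r, hr0, hr1, hr⟩ := not_harm (sig n)
    have h1 := h 0 (by simp [B]) r hr0 hr1
    rw [MeanValueAt, sphereMean_u, u] at h1
    exact hr (by exact_mod_cast h1)

end Pool.Agent.Results.MP_a19bc9_an.OneRadiusAnalytic
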